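import Pool.Agent.ASD.Stmts3
import Pool.Agent.ASD.Stmts5
import Pool.Agent.Helper48_ASO.FIN

/-!
# Squad ASD, rows F2A and F2B: the parts of the sum for `F₁₂` with `pL = ⊥` and `pL = A₁`
-/

open scoped BigOperators

noncomputable section

namespace Pool.Agent.PP.SD.H35

open Pool.Agent.Helper51_AWC Pool.Agent.Helper79_WRA Pool.Agent.PP Pool.Agent.PP.KF
open Pool.Agent.PP.K9 Pool.Agent.PP.K9.H97 Pool.Agent.PP.H75 Pool.Agent.PP.T3 Pool.Agent.PP.SO
open Pool.Agent.PP.SD Pool.Agent.PP.SO.H48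

attribute [local instance] Ideal.Quotient.field

theorem kf_one {V₀ : Type} [CommGroup V₀] (E₀ : Subgroup (MulAut V₀)) (W : Subgroup V₀) (c : V₀)
    (h : W ≤ Subgroup.zpowers c) : kf E₀ W c = 1 := by
  unfold kf
  rw [if_pos h]

open Classical in
/-- Row F2A. -/
theorem f2a (hW2A : W2aStmt) (hWZE : WzeStmt) (hMBI : MbiStmt) : F2aStmt := by
  intro ℓ hℓ M _ hM h2 V₀ G _ _ _ _ E₀ hFq B hSb n m hPE c d hc hd F₁₂ v hv
  let _ : Fintype (Set (SO.SS n V₀)) := Fintype.ofFinite _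
  have hterm : ∀ L : Set (SO.SS n V₀), (if L ∈ {L : Set (SO.SS n V₀) | pL L = ⊥} then
      (mob F₁₂ L : ℚ) * ((kf E₀ (pL L) c * kf E₀ (qL L) d : ℚ) : ℂ) * W12 B m c d L else 0) =
      if L = ∅ then v * L2 B c d else 0 := by
    intro L
    by_cases hL : L = ∅
    · subst hL
      have hp : pL (∅ : Set (SO.SS n V₀)) = ⊥ :=
        (pL_bot _).2 fun s hs => absurd hs (Set.notMem_empty s)
      have hq : qL (∅ : Set (SO.SS n V₀)) = ⊥ :=
        (qL_bot _).2 fun s hs => absurd hs (Set.notMem_empty s)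
      rw [if_pos (show (∅ : Set (SO.SS n V₀)) ∈ {L : Set (SO.SS n V₀) | pL L = ⊥} from hp), if_pos rfl,
        hp, hq, kf_one E₀ ⊥ c bot_le, kf_one E₀ ⊥ d bot_le,
        ((hWZE ℓ M hM V₀ G E₀ hFq.ex B hSb).2.2 n m c d hc hd).2,
        (hMBI (SO.SS n V₀) F₁₂).2.2.2, hv ∅ fun s hs => absurd hs (Set.notMem_empty s)]
      push_cast
      ring
    · have hLn : L.Nonempty := Set.nonempty_iff_ne_empty.2 hL
      rw [if_neg hL]
      by_cases hp : pL L = ⊥
      · rw [if_pos (show L ∈ {L : Set (SO.SS n V₀) | pL L = ⊥} from hp)]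
        by_cases hq : qL L = ⊥
        · have h3 : mob F₁₂ L = 0 := by
            rw [← (hMBI (SO.SS n V₀) F₁₂).2.2.1 L v hLn]
            refine (hMBI (SO.SS n V₀) _).2.1 L fun T hT => ?_
            rw [hv T fun s hs => ⟨(pL_bot L).1 hp s (hT hs), (qL_bot L).1 hq s (hT hs)⟩, sub_self]
          rw [h3]
          simp
        · rw [(hW2A ℓ M hM h2 V₀ G E₀ hFq B hSb n m hPE c d L).1 hp hq, mul_zero]
      · rw [if_neg (show L ∉ {L : Set (SO.SS n V₀) | pL L = ⊥} from hp)]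
  rw [fsum, Finset.sum_congr rfl fun L _ => hterm L, Finset.sum_ite_eq' Finset.univ ∅,
    if_pos (Finset.mem_univ _)]

open Classical in
/-- Row F2B. -/
theorem f2b (hDIX : DixStmt) (hW2A : W2aStmt) (hW2X : W2xStmt) (hM12 : M12Stmt)
    (hMBI : MbiStmt) : F2bStmt := by
  intro ℓ hℓ M _ hM h2 V₀ G _ _ _ _ E₀ A₁ A₂ hDx B hSb n m hPE c d hcA hdA hc hd F₁₂ v g hv hg
  have hFq : Fq ℓ V₀ E₀ := hDx.toFq
  obtain ⟨-, ⟨hA1, -, -, -, -, hle1, -⟩, hD3, -⟩ := hDIX ℓ V₀ E₀ A₁ A₂ hDx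
  obtain ⟨-, hMA2, hMA3, -⟩ := hMBI (SO.SS n V₀) F₁₂
  set F : Set (SO.SS n V₀) → ℚ := fun T => F₁₂ T - v with hF
  have hFmob : ∀ L : Set (SO.SS n V₀), L.Nonempty → mob F₁₂ L = mob F L := fun L hL =>
    (hMA3 L v hL).symm
  have hF0 : ∀ L : Set (SO.SS n V₀), pL L = ⊥ → qL L = ⊥ → mob F L = 0 := by
    intro L h1 h2
    refine (hMBI (SO.SS n V₀) F).2.1 L fun T hT => ?_
    have h3 := hv T fun s hs => ⟨(pL_bot L).1 h1 s (hT hs), (qL_bot L).1 h2 s (hT hs)⟩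
    simp only [hF]
    rw [h3, sub_self]
  let _ : Fintype (MulAut V₀) := Fintype.ofFinite _
  let _ : Fintype (Set (SO.SS n V₀)) := Fintype.ofFinite _
  -- `E₀` maps `A₁` to itself
  have hκA : ∀ σ ∈ E₀, c * σ d ∈ A₁ := fun σ hσ => A₁.mul_mem hcA (hDx.s1 σ hσ d hdA)
  -- the value of `W12`
  have hW : ∀ L : Set (SO.SS n V₀), pL L = A₁ →
      ((kf E₀ (pL L) c * kf E₀ (qL L) d : ℚ) : ℂ) * W12 B m c d L =
        (kE E₀ c : ℂ)⁻¹ * ∑ᶠ σ ∈ EL E₀ L, HK B m (c * σ d) L := by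
    intro L hL
    have hpn : pL L ≠ ⊥ := by
      rw [hL]
      exact hA1
    by_cases hE : EL E₀ L = ∅
    · rw [(hW2A ℓ M hM h2 V₀ G E₀ hFq B hSb n m hPE c d L).2.1 hpn hE, hE]
      simp
    · obtain ⟨σ, hσ⟩ := Set.nonempty_iff_ne_empty.2 hE
      have hq : qL L = A₁ := by
        have h3 : qL L ≤ A₁ := by
          unfold qL
          rw [Subgroup.closure_le]
          rintro q ⟨s, hs, rfl⟩
          have h4 : s.2.2.1 ∈ A₁ := by
            rw [← hL]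
            exact Subgroup.subset_closure ⟨s, hs, rfl⟩
          have h5 := hDx.s1 σ⁻¹ (E₀.inv_mem hσ.1) _ h4
          rw [← hσ.2 s hs, MulAut.inv_apply_self] at h5
          exact h5
        rcases hle1 _ h3 with h4 | h4
        · exfalso
          apply hpn
          rw [pL_bot]
          intro s hs
          rw [← hσ.2 s hs, (qL_bot L).1 h4 s hs, map_one]
        · exact h4
      rw [hW2X ℓ M hM h2 V₀ G E₀ hFq B hSb n m hPE c d L hpn (by rw [hL]; exact hcA)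
        (fun τ hτ => by rw [hL]; exact hDx.s1 τ hτ.1 d hdA), hq, hL,
        kf_one E₀ A₁ c (by rw [(hD3 c hcA hc).1]), kf_one E₀ A₁ d (by rw [(hD3 d hdA hd).1]),
        (hD3 c hcA hc).2.1]
      push_cast
      ring
  have haL : ∀ (L : Set (SO.SS n V₀)) (σ : MulAut V₀), pL L = A₁ → σ ∈ EL E₀ L →
      aL (c * σ d) L = ⊥ ∨ aL (c * σ d) L = A₁ := by
    intro L σ hL hσ
    apply hle1
    unfold aL
    rw [Subgroup.closure_le]
    rintro a ⟨s, hs, rfl⟩
    refine A₁.mul_mem (A₁.pow_mem (hκA σ hσ.1) _) ?_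
    rw [← hL]
    exact Subgroup.subset_closure ⟨s, hs, rfl⟩
  set X : MulAut V₀ → Set (SO.SS n V₀) → ℂ := fun σ L =>
    if pL L = A₁ ∧ σ ∈ EL E₀ L ∧ aL (c * σ d) L = ⊥ then
      (mob F L : ℂ) * HK B m (c * σ d) L else 0 with hX
  have hterm : ∀ L : Set (SO.SS n V₀), (if L ∈ {L : Set (SO.SS n V₀) | pL L = A₁} then
      (mob F₁₂ L : ℚ) * ((kf E₀ (pL L) c * kf E₀ (qL L) d : ℚ) : ℂ) * W12 B m c d L else 0) =
      (kE E₀ c : ℂ)⁻¹ * ((if L ∈ {L : Set (SO.SS n V₀) | pL L = A₁} then (mob F₁₂ L : ℚ) *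
        ∑ᶠ σ ∈ {σ | σ ∈ EL E₀ L ∧ aL (c * σ d) L = A₁}, HK B m (c * σ d) L else 0) +
        ∑ σ, X σ L) := by
    intro L
    by_cases hL : pL L = A₁
    · rw [if_pos (show L ∈ {L : Set (SO.SS n V₀) | pL L = A₁} from hL),
        if_pos (show L ∈ {L : Set (SO.SS n V₀) | pL L = A₁} from hL), mul_assoc, hW L hL]
      have hLn : L.Nonempty := by
        rw [Set.nonempty_iff_ne_empty]
        rintro rfl
        apply hA1
        rw [← hL]
        exact (pL_bot _).2 fun s hs => absurd hs (Set.notMem_empty s)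
      have h3 : (mob F₁₂ L : ℂ) * ∑ᶠ σ ∈ EL E₀ L, HK B m (c * σ d) L =
          (mob F₁₂ L : ℂ) * ∑ᶠ σ ∈ {σ | σ ∈ EL E₀ L ∧ aL (c * σ d) L = A₁},
            HK B m (c * σ d) L + ∑ σ, X σ L := by
        rw [fsum, fsum, Finset.mul_sum, Finset.mul_sum, ← Finset.sum_add_distrib]
        refine Finset.sum_congr rfl fun σ _ => ?_
        simp only [hX]
        by_cases h1 : σ ∈ EL E₀ L
        · rcases haL L σ hL h1 with h4 | h4
          · rw [if_pos h1, if_neg (fun h => hA1 (by rw [← h.2, h4])), if_pos ⟨hL, h1, h4⟩,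
              hFmob L hLn]
            ring
          · rw [if_pos h1, if_pos (show σ ∈ {σ | σ ∈ EL E₀ L ∧ aL (c * σ d) L = A₁} from ⟨h1, h4⟩),
              if_neg (fun h => hA1 (by rw [← h4, h.2.2]))]
            ring
        · rw [if_neg h1, if_neg (fun h => h1 h.1), if_neg (fun h => h1 h.2.1)]
          simp
      rw [← h3]
      ring
    · rw [if_neg (show L ∉ {L : Set (SO.SS n V₀) | pL L = A₁} from hL),
        if_neg (show L ∉ {L : Set (SO.SS n V₀) | pL L = A₁} from hL)]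
      have hX0 : ∑ σ, X σ L = 0 := by
        refine Finset.sum_eq_zero fun σ _ => ?_
        simp only [hX]
        rw [if_neg (fun h => hL h.1)]
      rw [hX0]
      simp
  have hn0 : 0 < n := by
    obtain ⟨r, -, hr⟩ := hPE.pw
    rw [hr]
    exact pow_pos hℓ.out.pos r
  have hXs : ∀ σ : MulAut V₀, ∑ L, X σ L = if σ ∈ {σ : MulAut V₀ | σ ∈ E₀ ∧ c * σ d ≠ 1} then
      -((g (c * σ d)⁻¹ (σ⁻¹ (c * σ d))⁻¹ : ℚ) * L1 B (c * σ d)) else 0 := by
    intro σ
    by_cases hσ : σ ∈ {σ : MulAut V₀ | σ ∈ E₀ ∧ c * σ d ≠ 1}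
    · rw [if_pos hσ]
      obtain ⟨hσE, hκ⟩ := hσ
      have hκ1 : c * σ d ∈ A₁ := hκA σ hσE
      set κ : V₀ := c * σ d with hκd
      have hval : ∀ L : Set (SO.SS n V₀), X σ L = if L ∈ tz κ (σ⁻¹ κ) then
          (mob F L : ℂ) * HK B m κ L else 0 := by
        intro L
        by_cases hL : L ∈ tz κ (σ⁻¹ κ)
        · obtain ⟨h1, h3⟩ := (tz_iff E₀ σ hσE κ L).1 hL
          rw [if_pos hL]
          by_cases hp : pL L = ⊥
          · have hq : qL L = ⊥ := by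
              rw [qL_bot]
              intro s hs
              have h4 := h1.2 s hs
              rw [(pL_bot L).1 hp s hs] at h4
              exact (map_eq_one_iff σ σ.injective).1 h4
            simp only [hX]
            rw [if_neg (fun h => hA1 (by rw [← h.1, hp])), hF0 L hp hq]
            simp
          · have hz := pL_zp (ℓ := ℓ) hFq.ex hκ L (fun s hs => (hL s hs).1) hp
            rw [(hD3 κ hκ1 hκ).1] at hz
            simp only [hX]
            rw [if_pos ⟨hz, h1, h3⟩]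
        · rw [if_neg hL]
          simp only [hX]
          rw [if_neg]
          rintro ⟨-, h1, h3⟩
          exact hL ((tz_iff E₀ σ hσE κ L).2 ⟨h1, h3⟩)
      have hv' := hM12 ℓ M hM V₀ G E₀ hFq.ex B hSb n m κ (σ⁻¹ κ) hκ F
        (-(g κ⁻¹ (σ⁻¹ κ)⁻¹)) hn0 (by
          intro I hI
          have h11 := hg κ⁻¹ (σ⁻¹ κ)⁻¹ I hI
          simp only [hF]
          rw [h11]
          ring)
      rw [Finset.sum_congr rfl fun L _ => hval L]
      have hv2 : ∑ L, (if L ∈ tz κ (σ⁻¹ κ) then (mob F L : ℂ) * HK B m κ L else 0)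
          = ((-(g κ⁻¹ (σ⁻¹ κ)⁻¹) : ℚ) : ℂ) * L1 B κ := by
        rw [← hv', fsum]
        rfl
      rw [hv2]
      push_cast
      ring
    · rw [if_neg hσ]
      refine Finset.sum_eq_zero fun L _ => ?_
      simp only [hX]
      rw [if_neg]
      rintro ⟨hp, h1, h3⟩
      apply hσ
      refine ⟨h1.1, fun hκ => hA1 ?_⟩
      rw [← hp, pL_bot]
      intro s hs
      have h4 := (aL_bot _ L).1 h3 s hs
      rwa [hκ, one_pow, one_mul] at h4
  rw [fsum, Finset.sum_congr rfl fun L _ => hterm L, ← Finset.mul_sum, Finset.sum_add_distrib,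
    Finset.sum_comm, Finset.sum_congr rfl fun σ _ => hXs σ]
  unfold AX2
  rw [fsum {L : Set (SO.SS n V₀) | pL L = A₁}]
  have e1 : (∑ σ : MulAut V₀, if σ ∈ {σ : MulAut V₀ | σ ∈ E₀ ∧ c * σ d ≠ 1} then
      -((g (c * σ d)⁻¹ (σ⁻¹ (c * σ d))⁻¹ : ℚ) * L1 B (c * σ d)) else 0) =
      -∑ᶠ σ ∈ {σ : MulAut V₀ | σ ∈ E₀ ∧ c * σ d ≠ 1},
        (g (c * σ d)⁻¹ (σ⁻¹ (c * σ d))⁻¹ : ℚ) * L1 B (c * σ d) := by
    rw [fsum, ← Finset.sum_neg_distrib]
    refine Finset.sum_congr rfl fun σ _ => ?_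
    split_ifs
    · rfl
    · simp
  rw [e1]
  ring

end Pool.Agent.PP.SD.H35
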